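import Mathlib

/-!
# A jump-critical poset with a chain of three elements

A linear extension of a finite poset `P` is a list of all elements of `P`, without repetitions, in which
no element is preceded by a larger one.  A jump is a pair of consecutive elements `x, y` of the list such
that `y` does not cover `x`, and the jump number `σ(P)` is the minimum number of jumps.  `P` is
jump-critical if `σ(P) ≥ 1` and `σ(P - {x}) < σ(P)` for all `x`.  We show that there are jump-critical
posets with chains of three elements: the ordinal sum of three antichains of two elements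
(`a, b < c, d < e, f`) has the jump number `3`, and after the removal of any element the jump number is
`2`.  So it is not true that all jump-critical posets have length at most one.
-/

namespace Pool.Agent.Results.MP_b5825f_co.LengthTwo

section definitions

variable (P : Type) [PartialOrder P]

/-- The list `L` is a linear extension of `P`: every element of `P` occurs exactly once, and no element
comes after a larger element. -/
def IsLinearExtension (L : List P) : Prop :=
  L.Nodup ∧ (∀ x, x ∈ L) ∧ L.Pairwise fun x y => ¬ y < x

open Classical in
/-- The number of jumps of `L`: pairs of consecutive elements `x, y` such that `y` does not cover `x`. -/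
noncomputable def jumps (L : List P) : ℕ :=
  (L.zip L.tail).countP fun p => decide (¬ p.1 ⋖ p.2)

/-- The jump number of `P`: the minimum number of jumps of the linear extensions of `P`. -/
noncomputable def jumpNumber : ℕ :=
  sInf {k | ∃ L : List P, IsLinearExtension P L ∧ jumps P L = k}

/-- `P` is jump-critical: the jump number is at least `1`, and it is smaller for `P - {x}`, for all
elements `x` of `P`. -/
def JumpCritical : Prop :=
  1 ≤ jumpNumber P ∧ ∀ x : P, jumpNumber {y : P // y ≠ x} < jumpNumber P

end definitions

/-- The six elements. -/
inductive Six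
  | a | b | c | d | e | f
  deriving DecidableEq

open Six

/-- The level of an element. -/
def level : Six → ℕ
  | a => 0
  | b => 0
  | c => 1
  | d => 1
  | e => 2
  | f => 2

instance : Fintype Six := ⟨{a, b, c, d, e, f}, by intro x; cases x <;> decide⟩

/-- The order: smaller level. -/
instance : PartialOrder Six where
  le x y := x = y ∨ level x < level y
  lt x y := level x < level y
  le_refl x := Or.inl rfl
  le_trans x y z hxy hyz := by
    rcases hxy with rfl | hxy
    · exact hyz
    · rcases hyz with rfl | hyz
      · exact Or.inr hxy
      · exact Or.inr (hxy.trans hyz)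
  lt_iff_le_not_ge x y := by
    constructor
    · intro h
      refine ⟨Or.inr h, ?_⟩
      rintro (rfl | h')
      · exact lt_irrefl _ h
      · exact lt_asymm h h'
    · rintro ⟨rfl | h, h'⟩
      · exact absurd (Or.inl rfl) h'
      · exact h
  le_antisymm x y hxy hyx := by
    rcases hxy with rfl | hxy
    · rfl
    · rcases hyx with h | hyx
      · exact h.symm
      · exact absurd hyx (lt_asymm hxy)

instance : DecidableLT Six := fun x y => inferInstanceAs (Decidable (level x < level y))

lemma lt_def (x y : Six) : x < y ↔ level x < level y := Iff.rfl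

/-- the number of consecutive pairs that are not comparable, computably -/
def cnt {P : Type} [LT P] [DecidableLT P] (L : List P) : ℕ :=
  (L.zip L.tail).countP fun p => decide (¬ p.1 < p.2)

/-- consecutive elements `x < y` of a linear extension are in the covering relation -/
lemma covBy_of_lt {P : Type} [PartialOrder P] {L : List P} (hL : IsLinearExtension P L) {x y : P}
    (hxy : (x, y) ∈ L.zip L.tail) (hlt : x < y) : x ⋖ y := by
  obtain ⟨hnd, hall, hpw⟩ := hL
  refine ⟨hlt, fun z hxz hzy => ?_⟩
  rw [List.mem_iff_getElem] at hxy
  obtain ⟨i, hi, hget⟩ := hxy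
  rw [List.length_zip, List.length_tail] at hi
  rw [List.getElem_zip, Prod.mk.injEq, List.getElem_tail] at hget
  obtain ⟨h1, h2⟩ := hget
  obtain ⟨j, hj, hz⟩ := List.mem_iff_getElem.1 (hall z)
  rw [List.pairwise_iff_getElem] at hpw
  have hji : i < j := by
    by_contra hle
    push Not at hle
    rcases Nat.lt_or_eq_of_le hle with h | h
    · have := hpw j i hj (by omega) h
      rw [hz, h1] at this
      exact this hxz
    · subst h
      rw [h1] at hz
      exact absurd hxz (by rw [hz]; exact lt_irrefl _)
  have hji' : j < i + 1 := by
    by_contra hle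
    push Not at hle
    rcases Nat.lt_or_eq_of_le hle with h | h
    · have := hpw (i + 1) j (by omega) hj h
      rw [hz, h2] at this
      exact this hzy
    · have h3 : L[j] = y := by
        rw [← h2]
        congr 1
        exact h.symm
      rw [h3] at hz
      exact absurd hzy (by rw [hz]; exact lt_irrefl _)
  omega

lemma jumps_eq {P : Type} [PartialOrder P] [DecidableLT P] {L : List P}
    (hL : IsLinearExtension P L) : jumps P L = cnt L := by
  unfold jumps cnt
  apply List.countP_congr
  rintro ⟨x, y⟩ hxy
  simp only [decide_eq_true_eq]
  exact ⟨fun h h' => h (covBy_of_lt hL hxy h'), fun h h' => h h'.lt⟩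

/-- the jump number of the poset is at least three -/
lemma three_le : 3 ≤ jumpNumber Six := by
  have key : ∀ L ∈ [a, b, c, d, e, f].permutations',
      (L.Pairwise fun x y => ¬ y < x) → 3 ≤ cnt L := by
    decide +kernel
  have hne : {k | ∃ L : List Six, IsLinearExtension Six L ∧ jumps Six L = k}.Nonempty :=
    ⟨_, [a, b, c, d, e, f], ⟨by decide, by intro x; cases x <;> decide, by decide⟩, rfl⟩
  obtain ⟨L, hL, hk⟩ := Nat.sInf_mem hne
  change 3 ≤ sInf _
  rw [← hk, jumps_eq hL]
  apply key L _ hL.2.2
  rw [List.mem_permutations']
  apply (List.perm_ext_iff_of_nodup hL.1 (by decide)).2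
  intro x
  constructor
  · intro _
    cases x <;> decide
  · intro _
    exact hL.2.1 x

lemma le_two_of {P : Type} [PartialOrder P] [DecidableLT P] (L : List P)
    (hL : IsLinearExtension P L) (h : cnt L ≤ 2) : jumpNumber P ≤ 2 := by
  refine le_trans (Nat.sInf_le ⟨L, hL, rfl⟩) ?_
  rw [jumps_eq hL]
  exact h

/-- after the removal of any element the jump number is at most two -/
lemma le_two (x : Six) : jumpNumber {y : Six // y ≠ x} ≤ 2 := by
  cases x
  · exact le_two_of [⟨b, by decide⟩, ⟨c, by decide⟩, ⟨d, by decide⟩, ⟨e, by decide⟩,
      ⟨f, by decide⟩] ⟨by decide, by decide, by decide⟩ (by decide)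
  · exact le_two_of [⟨a, by decide⟩, ⟨c, by decide⟩, ⟨d, by decide⟩, ⟨e, by decide⟩,
      ⟨f, by decide⟩] ⟨by decide, by decide, by decide⟩ (by decide)
  · exact le_two_of [⟨a, by decide⟩, ⟨b, by decide⟩, ⟨d, by decide⟩, ⟨e, by decide⟩,
      ⟨f, by decide⟩] ⟨by decide, by decide, by decide⟩ (by decide)
  · exact le_two_of [⟨a, by decide⟩, ⟨b, by decide⟩, ⟨c, by decide⟩, ⟨e, by decide⟩,
      ⟨f, by decide⟩] ⟨by decide, by decide, by decide⟩ (by decide)
  · exact le_two_of [⟨a, by decide⟩, ⟨b, by decide⟩, ⟨c, by decide⟩, ⟨d, by decide⟩,
      ⟨f, by decide⟩] ⟨by decide, by decide, by decide⟩ (by decide)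
  · exact le_two_of [⟨a, by decide⟩, ⟨b, by decide⟩, ⟨c, by decide⟩, ⟨d, by decide⟩,
      ⟨e, by decide⟩] ⟨by decide, by decide, by decide⟩ (by decide)

/-- There is a finite jump-critical poset that contains a chain `x < y < z` of three elements. -/
theorem result : ∃ (P : Type) (_ : Finite P) (_ : PartialOrder P),
    JumpCritical P ∧ ∃ x y z : P, x < y ∧ y < z := by
  refine ⟨Six, inferInstance, inferInstance, ⟨?_, fun x => ?_⟩, a, c, e, by decide, by decide⟩
  · exact le_trans (by norm_num) three_le
  · exact lt_of_le_of_lt (le_two x) three_le

end Pool.Agent.Results.MP_b5825f_co.LengthTwo
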